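import Mathlib

/-! # Integrality of power-sum ratios for l-sequences -/

set_option autoImplicit false

namespace Pool.Agent.Results.MP_0634a4_nt.PowerSumRatios

open Finset Polynomial

/-- the `ℓ`-sequence `u_0 = 0`, `u_1 = 1`, `u_m = ℓ u_{m-1} - u_{m-2}` -/
def u (ℓ : ℤ) : ℕ → ℤ
  | 0 => 0
  | 1 => 1
  | (m + 2) => ℓ * u ℓ (m + 1) - u ℓ m

/-- `S_k(j, n) = ∑_{i=j}^{n} u_i^{2k-1}` -/
def S (ℓ : ℤ) (k j n : ℕ) : ℚ := ∑ i ∈ Icc j n, (u ℓ i : ℚ) ^ (2 * k - 1)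

/-- `P_{n,k} = ∏_{j=1}^{n} S_k(j, n) / u_j` -/
def P (ℓ : ℤ) (n k : ℕ) : ℚ := ∏ j ∈ Icc 1 n, S ℓ k j n / (u ℓ j : ℚ)

/-- `R_{n,k} = S_k(1, n) / S_1(1, n)` -/
def R (ℓ : ℤ) (n k : ℕ) : ℚ := S ℓ k 1 n / S ℓ 1 1 n

/-- `T_{n,k} = (∑_{i=1}^{n} u_i^{3(4k-3)}) / (∑_{i=1}^{n} u_i^3)` -/
def T (ℓ : ℤ) (n k : ℕ) : ℚ :=
  (∑ i ∈ Icc 1 n, (u ℓ i : ℚ) ^ (3 * (4 * k - 3))) / ∑ i ∈ Icc 1 n, (u ℓ i : ℚ) ^ 3

/-! ### Polynomials -/

/-- `1 + X² + ⋯ + X^{2(i-1)}` -/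
noncomputable def V (i : ℕ) : ℤ[X] := ∑ t ∈ range i, (X ^ 2) ^ t

theorem V_mul (i : ℕ) : (X ^ 2 - 1) * V i = X ^ (2 * i) - 1 := by
  unfold V
  rw [mul_geom_sum, ← pow_mul]

/-- `X^{(n-1)(2k-1)} S_k(j, n)` as a polynomial in `X`, where `ℓ = X + 1/X` -/
noncomputable def Sh (n k j : ℕ) : ℤ[X] := ∑ i ∈ Icc j n, (X ^ (n - i) * V i) ^ (2 * k - 1)

theorem monic_sub (s : ℕ) (hs : 1 ≤ s) : ((X : ℤ[X]) ^ s - 1).Monic := by
  have := monic_X_pow_sub_C (1 : ℤ) (by omega : s ≠ 0)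
  simpa using this

theorem dvd_pow_sub (s e : ℕ) (h : s ∣ e) : ((X : ℤ[X]) ^ s - 1) ∣ X ^ e - 1 := by
  obtain ⟨t, rfl⟩ := h
  rw [pow_mul]
  exact sub_one_dvd_pow_sub_one _ _

theorem dvd_pair (n k i i' s : ℕ) (hk : 1 ≤ k) (hi : i ≤ n) (hi' : i' ≤ n) (h : s ∣ i + i') :
    ((X : ℤ[X]) ^ s - 1) ∣ (X ^ 2 - 1) * ((X ^ (n - i) * V i) ^ (2 * k - 1) +
      (X ^ (n - i') * V i') ^ (2 * k - 1)) := by
  have h1 : ((X : ℤ[X]) ^ s - 1) ∣ (X ^ 2 - 1) * (X ^ (n - i) * V i + X ^ (n - i') * V i') := by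
    have h2 : (X ^ 2 - 1) * (X ^ (n - i) * V i + X ^ (n - i') * V i') =
        (X ^ (n - i') + X ^ (n - i)) * ((X : ℤ[X]) ^ (i + i') - 1) := by
      have e1 := V_mul i
      have e2 := V_mul i'
      have e3 : (X : ℤ[X]) ^ (n - i') * X ^ (i + i') = X ^ (n - i) * X ^ (2 * i) := by
        rw [← pow_add, ← pow_add]; congr 1; omega
      have e4 : (X : ℤ[X]) ^ (n - i) * X ^ (i + i') = X ^ (n - i') * X ^ (2 * i') := by
        rw [← pow_add, ← pow_add]; congr 1; omega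
      linear_combination (X : ℤ[X]) ^ (n - i) * e1 + (X : ℤ[X]) ^ (n - i') * e2 - e3 - e4
    rw [h2]
    exact (dvd_pow_sub s _ h).mul_left _
  have hodd : Odd (2 * k - 1) := ⟨k - 1, by omega⟩
  exact h1.trans (mul_dvd_mul_left _ (hodd.add_dvd_pow_add_pow _ _))

theorem cancel_two (s : ℕ) (hs : 1 ≤ s) (F : ℤ[X]) (h : ((X : ℤ[X]) ^ s - 1) ∣ 2 * F) :
    ((X : ℤ[X]) ^ s - 1) ∣ F := by
  rw [← Polynomial.map_dvd_map (Int.castRingHom ℚ) Int.cast_injective (monic_sub s hs)]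
  obtain ⟨Q, hQ⟩ := h
  refine ⟨C (1 / 2 : ℚ) * Q.map (Int.castRingHom ℚ), ?_⟩
  have h1 := congrArg (Polynomial.map (Int.castRingHom ℚ)) hQ
  rw [Polynomial.map_mul, Polynomial.map_mul, Polynomial.map_ofNat] at h1
  have h2 : (C (1 / 2 : ℚ)) * 2 = 1 := by
    have : (2 : ℚ[X]) = C 2 := (map_ofNat C 2).symm
    rw [this, ← C_mul]; norm_num
  linear_combination C (1 / 2 : ℚ) * h1 - F.map (Int.castRingHom ℚ) * h2

/-- the basic divisibility -/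
theorem dvd_F (n k j s : ℕ) (hk : 1 ≤ k) (hs : 1 ≤ s) (σ : ℕ → ℕ)
    (h1 : ∀ i ∈ Icc j n, σ i ∈ Icc j n) (h2 : ∀ i ∈ Icc j n, ∀ i' ∈ Icc j n, σ i = σ i' → i = i')
    (h3 : ∀ i ∈ Icc j n, s ∣ i + σ i) : ((X : ℤ[X]) ^ s - 1) ∣ (X ^ 2 - 1) * Sh n k j := by
  apply cancel_two s hs
  have h4 : ∑ i ∈ Icc j n, (X ^ (n - σ i) * V (σ i)) ^ (2 * k - 1) =
      ∑ i ∈ Icc j n, ((X : ℤ[X]) ^ (n - i) * V i) ^ (2 * k - 1) := by
    refine Finset.sum_bij (fun i _ => σ i) h1 (fun i hi i' hi' h => h2 i hi i' hi' h) ?_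
      (fun _ _ => rfl)
    have h5 : Set.InjOn σ (Icc j n : Finset ℕ) := fun i hi i' hi' h =>
      h2 i (Finset.mem_coe.1 hi) i' (Finset.mem_coe.1 hi') h
    have h6 : (Icc j n).image σ = Icc j n :=
      Finset.eq_of_subset_of_card_le (Finset.image_subset_iff.2 h1)
        (by rw [Finset.card_image_of_injOn h5])
    intro i hi
    rw [← h6, mem_image] at hi
    obtain ⟨a, ha, ha'⟩ := hi
    exact ⟨a, ha, ha'⟩
  have h5 : 2 * ((X ^ 2 - 1) * Sh n k j) = ∑ i ∈ Icc j n,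
      (X ^ 2 - 1) * (((X : ℤ[X]) ^ (n - i) * V i) ^ (2 * k - 1) +
        (X ^ (n - σ i) * V (σ i)) ^ (2 * k - 1)) := by
    rw [← Finset.mul_sum, Finset.sum_add_distrib, h4]
    unfold Sh
    ring
  rw [h5]
  refine Finset.dvd_sum fun i hi => ?_
  exact dvd_pair n k i (σ i) s hk (mem_Icc.1 hi).2 (mem_Icc.1 (h1 i hi)).2 (h3 i hi)

theorem dvd_a (n k j : ℕ) (hk : 1 ≤ k) (hj : 1 ≤ j) :
    ((X : ℤ[X]) ^ (n + j) - 1) ∣ (X ^ 2 - 1) * Sh n k j := by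
  refine dvd_F n k j (n + j) hk (by omega) (fun i => n + j - i) ?_ ?_ ?_
  · intro i hi; rw [mem_Icc] at hi ⊢; omega
  · intro i hi i' hi' h; rw [mem_Icc] at hi hi'; omega
  · intro i hi
    rw [mem_Icc] at hi
    have : i + (n + j - i) = n + j := by omega
    rw [this]

theorem dvd_b (n k j : ℕ) (hk : 1 ≤ k) (hjn : j ≤ n) :
    ((X : ℤ[X]) ^ (n + 1 - j) - 1) ∣ (X ^ 2 - 1) * Sh n k j := by
  set b := n + 1 - j with hb
  have hb0 : 0 < b := by omega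
  have key : ∀ i, b ∣ i + (j + ((b - 1) * (i + j)) % b) := by
    intro i
    have h1 : (i + (j + ((b - 1) * (i + j)) % b)) ≡ i + (j + (b - 1) * (i + j)) [MOD b] :=
      ((Nat.mod_modEq _ _).add_left j).add_left i
    rw [← Nat.modEq_zero_iff_dvd]
    refine h1.trans ?_
    rw [Nat.modEq_zero_iff_dvd]
    refine ⟨i + j, ?_⟩
    obtain ⟨c, hc⟩ : ∃ c, b = c + 1 := ⟨b - 1, by omega⟩
    rw [hc, Nat.add_sub_cancel]
    ring
  refine dvd_F n k j b hk hb0 (fun i => j + ((b - 1) * (i + j)) % b) ?_ ?_ ?_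
  · intro i hi
    rw [mem_Icc] at hi ⊢
    have := Nat.mod_lt ((b - 1) * (i + j)) hb0
    omega
  · intro i hi i' hi' h
    rw [mem_Icc] at hi hi'
    have h1 := key i
    have h2 := key i'
    rw [← h] at h2
    have h3 : i ≡ i' [MOD b] := by
      have h4 : i + (j + ((b - 1) * (i + j)) % b) ≡ i' + (j + ((b - 1) * (i + j)) % b) [MOD b] :=
        (Nat.modEq_zero_iff_dvd.2 h1).trans (Nat.modEq_zero_iff_dvd.2 h2).symm
      exact Nat.ModEq.add_right_cancel' _ h4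
    have h5 : i - j ≡ i' - j [MOD b] := by
      have h6 : (i - j) + j ≡ (i' - j) + j [MOD b] := by
        rw [Nat.sub_add_cancel hi.1, Nat.sub_add_cancel hi'.1]; exact h3
      exact Nat.ModEq.add_right_cancel' _ h6
    have h7 := h5.eq_of_lt_of_lt (by omega) (by omega)
    omega
  · intro i _
    exact key i

theorem gcd_lemma (a b : ℕ) (F : ℤ[X]) (ha : 0 < a) (hb : 0 < b)
    (hA : ((X : ℤ[X]) ^ a - 1) ∣ F) (hB : ((X : ℤ[X]) ^ b - 1) ∣ F) :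
    (((X : ℤ[X]) ^ a - 1) * (X ^ b - 1)) ∣ (X ^ (Nat.gcd a b) - 1) * F := by
  -- natural numbers `p, q` with `a p = b q + gcd`
  obtain ⟨p, q, hpq⟩ : ∃ p q : ℕ, a * p = b * q + Nat.gcd a b := by
    rcases lt_or_ge (Nat.gcd a b) b with h | h
    · obtain ⟨m, _, hm⟩ := Nat.exists_mul_mod_eq_gcd h
      exact ⟨m, a * m / b, by rw [← hm]; exact (Nat.div_add_mod _ _).symm⟩
    · have h1 : Nat.gcd a b = b := le_antisymm (Nat.le_of_dvd hb (Nat.gcd_dvd_right a b)) h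
      obtain ⟨c, hc⟩ : b ∣ a := by rw [← h1]; exact Nat.gcd_dvd_left a b
      have hc0 : 0 < c := by
        rcases Nat.eq_zero_or_pos c with h2 | h2
        · subst h2; omega
        · exact h2
      obtain ⟨d, rfl⟩ : ∃ d, c = d + 1 := ⟨c - 1, by omega⟩
      exact ⟨1, d, by rw [h1, hc]; ring⟩
  set g := Nat.gcd a b with hg
  have h1 : (X : ℤ[X]) ^ g - 1 = (X ^ (a * p) - 1) - (X ^ (b * q) - 1) -
      (X ^ (b * q) - 1) * (X ^ g - 1) := by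
    rw [hpq, pow_add]; ring
  have h2 : ((X : ℤ[X]) ^ a - 1) ∣ X ^ (a * p) - 1 := dvd_pow_sub a _ (dvd_mul_right _ _)
  have h3 : ((X : ℤ[X]) ^ b - 1) ∣ X ^ (b * q) - 1 := dvd_pow_sub b _ (dvd_mul_right _ _)
  have h4 : (((X : ℤ[X]) ^ a - 1) * (X ^ b - 1)) ∣ (X ^ (a * p) - 1) * F := mul_dvd_mul h2 hB
  have h5 : (((X : ℤ[X]) ^ a - 1) * (X ^ b - 1)) ∣ (X ^ (b * q) - 1) * F := by
    rw [mul_comm ((X : ℤ[X]) ^ a - 1)]
    exact mul_dvd_mul h3 hA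
  have h6 : ((X : ℤ[X]) ^ g - 1) * F = (X ^ (a * p) - 1) * F - (X ^ (b * q) - 1) * F -
      (X ^ g - 1) * ((X ^ (b * q) - 1) * F) := by
    linear_combination F * h1
  rw [h6]
  exact (h4.sub h5).sub (h5.mul_left _)

theorem main_j (n k j : ℕ) (hk : 1 ≤ k) (hj : 1 ≤ j) (hjn : j ≤ n) :
    (((X : ℤ[X]) ^ (n + j) - 1) * (X ^ (n + 1 - j) - 1)) ∣
      (X ^ (2 * j - 1) - 1) * ((X ^ 2 - 1) * Sh n k j) := by
  refine (gcd_lemma (n + j) (n + 1 - j) _ (by omega) (by omega) (dvd_a n k j hk hj)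
    (dvd_b n k j hk hjn)).trans (mul_dvd_mul_right (dvd_pow_sub _ _ ?_) _)
  have h1 : Nat.gcd (n + j) (n + 1 - j) ∣ n + j := Nat.gcd_dvd_left _ _
  have h2 : Nat.gcd (n + j) (n + 1 - j) ∣ n + 1 - j := Nat.gcd_dvd_right _ _
  have h3 := Nat.dvd_sub h1 h2
  have h4 : n + j - (n + 1 - j) = 2 * j - 1 := by omega
  rwa [h4] at h3

theorem X_pow_sub_ne (s : ℕ) (hs : 1 ≤ s) : ((X : ℤ[X]) ^ s - 1) ≠ 0 := (monic_sub s hs).ne_zero

/-- `∏_{j ≤ n} V_j` divides `∏_{j ≤ n} Sh_j` -/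
theorem prod_dvd (n k : ℕ) (hk : 1 ≤ k) : (∏ j ∈ Icc 1 n, V j) ∣ ∏ j ∈ Icc 1 n, Sh n k j := by
  have h1 : (∏ j ∈ Icc 1 n, (((X : ℤ[X]) ^ (n + j) - 1) * (X ^ (n + 1 - j) - 1))) ∣
      ∏ j ∈ Icc 1 n, ((X ^ (2 * j - 1) - 1) * ((X ^ 2 - 1) * Sh n k j)) :=
    Finset.prod_dvd_prod_of_dvd _ _ fun j hj => main_j n k j hk (mem_Icc.1 hj).1 (mem_Icc.1 hj).2
  have h2 : (∏ j ∈ Icc 1 n, (((X : ℤ[X]) ^ (n + j) - 1) * (X ^ (n + 1 - j) - 1))) =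
      ∏ j ∈ Icc 1 n, (((X : ℤ[X]) ^ (2 * j) - 1) * (X ^ (2 * j - 1) - 1)) := by
    have e1 : ∏ j ∈ Icc 1 n, ((X : ℤ[X]) ^ (n + 1 - j) - 1) = ∏ j ∈ Icc 1 n, ((X : ℤ[X]) ^ j - 1) := by
      refine Finset.prod_bij (fun j _ => n + 1 - j) ?_ ?_ ?_ ?_
      · intro j hj; rw [mem_Icc] at hj ⊢; omega
      · intro j hj j' hj' h; rw [mem_Icc] at hj hj'; omega
      · intro j hj
        rw [mem_Icc] at hj
        exact ⟨n + 1 - j, by rw [mem_Icc]; omega, by omega⟩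
      · intro j hj; rfl
    have e2 : ∀ m : ℕ, (∏ j ∈ Icc 1 m, ((X : ℤ[X]) ^ (m + j) - 1)) *
        ∏ j ∈ Icc 1 m, ((X : ℤ[X]) ^ j - 1) = ∏ j ∈ Icc 1 (2 * m), ((X : ℤ[X]) ^ j - 1) := by
      intro m
      have e3 : Icc 1 (2 * m) = Icc 1 m ∪ Icc (m + 1) (2 * m) := by
        ext i; simp only [mem_Icc, mem_union]; omega
      have e4 : Disjoint (Icc 1 m) (Icc (m + 1) (2 * m)) := by
        rw [Finset.disjoint_left]; intro i; simp only [mem_Icc]; omega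
      rw [e3, Finset.prod_union e4, mul_comm]
      congr 1
      refine Finset.prod_bij (fun j _ => m + j) ?_ ?_ ?_ ?_
      · intro j hj; rw [mem_Icc] at hj ⊢; omega
      · intro j hj j' hj' h; omega
      · intro j hj
        rw [mem_Icc] at hj
        exact ⟨j - m, by rw [mem_Icc]; omega, by omega⟩
      · intro j hj; rfl
    have e5 : ∀ m : ℕ, ∏ j ∈ Icc 1 (2 * m), ((X : ℤ[X]) ^ j - 1) =
        ∏ j ∈ Icc 1 m, (((X : ℤ[X]) ^ (2 * j) - 1) * (X ^ (2 * j - 1) - 1)) := by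
      intro m
      induction m with
      | zero => simp
      | succ m ih =>
        rw [Finset.prod_Icc_succ_top (by omega), ← ih, show 2 * (m + 1) = (2 * m + 1) + 1 by ring,
          Finset.prod_Icc_succ_top (by omega), Finset.prod_Icc_succ_top (by omega)]
        have : 2 * m + 1 + 1 - 1 = 2 * m + 1 := by omega
        rw [this]
        ring
    rw [Finset.prod_mul_distrib, e1, e2, e5]
  rw [h2, Finset.prod_mul_distrib, Finset.prod_mul_distrib, mul_comm] at h1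
  have h3 : (∏ j ∈ Icc 1 n, ((X : ℤ[X]) ^ (2 * j - 1) - 1)) ≠ 0 :=
    Finset.prod_ne_zero_iff.2 fun j hj => X_pow_sub_ne _ (by have := (mem_Icc.1 hj).1; omega)
  have h4 := (mul_dvd_mul_iff_left h3).1 h1
  have h5 : ∏ j ∈ Icc 1 n, ((X : ℤ[X]) ^ (2 * j) - 1) =
      (∏ _j ∈ Icc 1 n, ((X : ℤ[X]) ^ 2 - 1)) * ∏ j ∈ Icc 1 n, V j := by
    rw [← Finset.prod_mul_distrib]
    exact Finset.prod_congr rfl fun j _ => (V_mul j).symm
  rw [h5, Finset.prod_mul_distrib] at h4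
  have h6 : (∏ _j ∈ Icc 1 n, ((X : ℤ[X]) ^ 2 - 1)) ≠ 0 :=
    Finset.prod_ne_zero_iff.2 fun j _ => X_pow_sub_ne _ (by norm_num)
  exact (mul_dvd_mul_iff_left h6).1 h4

theorem Sh_one (n : ℕ) : (X - 1) * ((X ^ 2 - 1) * Sh n 1 1) = ((X : ℤ[X]) ^ n - 1) * (X ^ (n + 1) - 1) := by
  have h : ∀ n, Sh n 1 1 = ∑ i ∈ Icc 1 n, (X ^ (n - i) * V i : ℤ[X]) := by
    intro n; unfold Sh; simp
  rw [h]
  induction n with
  | zero => simp
  | succ n ih =>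
    rw [Finset.sum_Icc_succ_top (by omega)]
    have h1 : ∀ i ∈ Icc 1 n, (X ^ (n + 1 - i) * V i : ℤ[X]) = X * (X ^ (n - i) * V i) := by
      intro i hi
      rw [mem_Icc] at hi
      rw [show n + 1 - i = (n - i) + 1 by omega]
      ring
    rw [Finset.sum_congr rfl h1, ← Finset.mul_sum, Nat.sub_self, pow_zero, one_mul]
    have h2 := V_mul (n + 1)
    linear_combination X * ih + (X - 1) * h2

/-- `Sh_1` for the first powers divides `Sh_1` for the `(2k-1)`-th powers -/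
theorem first_dvd (n k : ℕ) (hk : 1 ≤ k) (hn : 1 ≤ n) : Sh n 1 1 ∣ Sh n k 1 := by
  have h1 := main_j n k 1 hk le_rfl hn
  rw [show 2 * 1 - 1 = 1 by norm_num, show n + 1 - 1 = n by omega, pow_one,
    mul_comm ((X : ℤ[X]) ^ (n + 1) - 1), ← Sh_one, ← mul_assoc, ← mul_assoc] at h1
  have h2 : ((X : ℤ[X]) - 1) * (X ^ 2 - 1) ≠ 0 := by
    apply mul_ne_zero
    · have := X_pow_sub_ne 1 le_rfl
      rwa [pow_one] at this
    · exact X_pow_sub_ne 2 (by norm_num)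
  exact (mul_dvd_mul_iff_left h2).1 h1

/-! ### Evaluation -/

/-- the values of the polynomials at `x` with `x + y = ℓ`, `x y = 1` -/
theorem V_eval (ℓ : ℤ) (x y : ℝ) (h1 : x + y = ℓ) (h2 : x * y = 1) (i : ℕ) :
    x * aeval x (V i) = x ^ i * (u ℓ i : ℝ) := by
  have hV : ∀ i, aeval x (V (i + 1)) = aeval x (V i) + (x ^ 2) ^ i := by
    intro i
    unfold V
    rw [Finset.sum_range_succ]
    simp
  have key : ∀ i, x * aeval x (V i) = x ^ i * (u ℓ i : ℝ) ∧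
      x * aeval x (V (i + 1)) = x ^ (i + 1) * (u ℓ (i + 1) : ℝ) := by
    intro i
    induction i with
    | zero =>
      constructor
      · simp [V, u]
      · simp [V, u]
    | succ i ih =>
      refine ⟨ih.2, ?_⟩
      have h3 : (u ℓ (i + 1 + 1) : ℝ) = ℓ * u ℓ (i + 1) - u ℓ i := by
        have : u ℓ (i + 1 + 1) = ℓ * u ℓ (i + 1) - u ℓ i := rfl
        rw [this]; push_cast; ring
      have h4 := hV (i + 1)
      have h5 := hV i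
      have h6 := ih.1
      have h7 := ih.2
      rw [h3, ← h1, h4]
      -- V (i+2) = V (i+1) + x^(2(i+1)), V (i+1) = V i + x^(2i)
      have h8 : x ^ (i + 1 + 1) * ((x + y) * (u ℓ (i + 1) : ℝ) - u ℓ i) =
          (x ^ 2 + x * y) * (x ^ (i + 1) * (u ℓ (i + 1) : ℝ)) - x ^ 2 * (x ^ i * (u ℓ i : ℝ)) := by
        ring
      rw [h8, ← h6, ← h7, h2, h5]
      ring
  exact (key i).1

theorem integral_rat (q : ℚ) (h : IsIntegral ℤ (q : ℝ)) : ∃ z : ℤ, q = z := by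
  have h1 : IsIntegral ℤ q := by
    have h2 : IsIntegral ℤ (algebraMap ℚ ℝ q) := h
    exact (isIntegral_algebraMap_iff (algebraMap ℚ ℝ).injective).1 h2
  obtain ⟨z, hz⟩ := IsIntegrallyClosed.isIntegral_iff.1 h1
  exact ⟨z, hz.symm⟩

theorem integral_aeval (x : ℝ) (hx : IsIntegral ℤ x) (Q : ℤ[X]) : IsIntegral ℤ (aeval x Q) := by
  rw [Polynomial.aeval_eq_sum_range]
  exact IsIntegral.sum _ fun i _ => (hx.pow i).smul _

theorem u_pos (ℓ : ℤ) (hℓ : 2 ≤ ℓ) (i : ℕ) (hi : 1 ≤ i) : 0 < u ℓ i := by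
  have key : ∀ i, 0 ≤ u ℓ i ∧ u ℓ i + 1 ≤ u ℓ (i + 1) := by
    intro i
    induction i with
    | zero => simp [u]
    | succ i ih =>
      have h1 : u ℓ (i + 1 + 1) = ℓ * u ℓ (i + 1) - u ℓ i := rfl
      refine ⟨by linarith [ih.1, ih.2], ?_⟩
      rw [h1]
      nlinarith [ih.1, ih.2]
  obtain ⟨j, rfl⟩ : ∃ j, i = j + 1 := ⟨i - 1, by omega⟩
  have := key j
  linarith [this.1, this.2]

/-- the roots `x, y` of `t² - ℓ t + 1` -/
theorem exists_roots (ℓ : ℤ) (hℓ : 2 ≤ ℓ) : ∃ x y : ℝ, x + y = ℓ ∧ x * y = 1 ∧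
    IsIntegral ℤ x ∧ IsIntegral ℤ y := by
  have h4 : (0 : ℝ) ≤ (ℓ : ℝ) ^ 2 - 4 := by
    have : (2 : ℝ) ≤ ℓ := by exact_mod_cast hℓ
    nlinarith
  have hs := Real.mul_self_sqrt h4
  have hint : ∀ z : ℝ, z ^ 2 = ℓ * z - 1 → IsIntegral ℤ z := by
    intro z hz
    refine ⟨X ^ 2 - C ℓ * X + C 1, ?_, ?_⟩
    · have h1 : (X ^ 2 - C ℓ * X + C 1 : ℤ[X]) = X ^ 2 + (C (-ℓ) * X + C 1) := by
        rw [C_neg]; ring
      rw [h1]
      apply monic_X_pow_add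
      refine lt_of_le_of_lt (degree_linear_le) ?_
      norm_num
    · simp only [eval₂_add, eval₂_sub, eval₂_mul, eval₂_pow, eval₂_X, eval₂_C]
      simp only [algebraMap_int_eq, eq_intCast, Int.cast_one]
      linarith
  refine ⟨(ℓ + Real.sqrt ((ℓ : ℝ) ^ 2 - 4)) / 2, (ℓ - Real.sqrt ((ℓ : ℝ) ^ 2 - 4)) / 2, by ring,
    ?_, ?_, ?_⟩
  · linear_combination -(1 / 4 : ℝ) * hs
  · apply hint
    linear_combination (1 / 4 : ℝ) * hs
  · apply hint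
    linear_combination (1 / 4 : ℝ) * hs

theorem Sh_eval (ℓ : ℤ) (x y : ℝ) (h1 : x + y = ℓ) (h2 : x * y = 1) (n k j : ℕ) :
    ((S ℓ k j n : ℚ) : ℝ) = y ^ (n * (2 * k - 1)) * x ^ (2 * k - 1) * aeval x (Sh n k j) := by
  unfold S Sh
  rw [map_sum, Finset.mul_sum]
  push_cast
  refine Finset.sum_congr rfl fun i hi => ?_
  rw [mem_Icc] at hi
  rw [map_pow, map_mul, map_pow, aeval_X]
  have h3 := V_eval ℓ x y h1 h2 i
  have h4 : y ^ (n * (2 * k - 1)) * x ^ (2 * k - 1) * (x ^ (n - i) * aeval x (V i)) ^ (2 * k - 1) =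
      (y ^ n * (x ^ (n - i) * (x * aeval x (V i)))) ^ (2 * k - 1) := by
    rw [pow_mul, ← mul_pow, ← mul_pow]
    congr 1
    ring
  rw [h4, h3]
  congr 1
  have h5 : x ^ (n - i) * (x ^ i * (u ℓ i : ℝ)) = x ^ n * (u ℓ i : ℝ) := by
    rw [← mul_assoc, ← pow_add, Nat.sub_add_cancel hi.2]
  rw [h5, ← mul_assoc, ← mul_pow, mul_comm y x, h2, one_pow, one_mul]

theorem P_integral (ℓ : ℤ) (hℓ : 2 ≤ ℓ) (n k : ℕ) (hk : 1 ≤ k) : ∃ z : ℤ, P ℓ n k = z := by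
  obtain ⟨x, y, h1, h2, hx, hy⟩ := exists_roots ℓ hℓ
  obtain ⟨Q, hQ⟩ := prod_dvd n k hk
  apply integral_rat
  have h3 : (((P ℓ n k : ℚ)) : ℝ) = (∏ _j ∈ Icc 1 n, (y ^ (n * (2 * k - 1)) * x ^ (2 * k - 1))) *
      (∏ j ∈ Icc 1 n, (y * x ^ j)) * aeval x Q := by
    unfold P
    rw [Finset.prod_div_distrib]
    push_cast
    have hne : (∏ j ∈ Icc 1 n, ((u ℓ j : ℤ) : ℝ)) ≠ 0 := by
      refine Finset.prod_ne_zero_iff.2 fun j hj => ?_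
      have := u_pos ℓ hℓ j (mem_Icc.1 hj).1
      exact_mod_cast this.ne'
    rw [div_eq_iff hne, Finset.prod_congr rfl (fun j _ => Sh_eval ℓ x y h1 h2 n k j),
      Finset.prod_mul_distrib]
    have h4 : ∏ j ∈ Icc 1 n, aeval x (Sh n k j) = (∏ j ∈ Icc 1 n, aeval x (V j)) * aeval x Q := by
      rw [← map_prod, hQ, map_mul, map_prod]
    have h5 : ∏ j ∈ Icc 1 n, aeval x (V j) =
        (∏ j ∈ Icc 1 n, (y * x ^ j)) * ∏ j ∈ Icc 1 n, ((u ℓ j : ℤ) : ℝ) := by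
      rw [← Finset.prod_mul_distrib]
      refine Finset.prod_congr rfl fun j _ => ?_
      have h6 := V_eval ℓ x y h1 h2 j
      linear_combination y * h6 - aeval x (V j) * h2
    rw [h4, h5]
    ring
  rw [h3]
  refine ((IsIntegral.prod _ fun j _ => ?_).mul (IsIntegral.prod _ fun j _ => ?_)).mul
    (integral_aeval x hx Q)
  · exact (hy.pow _).mul (hx.pow _)
  · exact hy.mul (hx.pow _)

theorem R_integral (ℓ : ℤ) (hℓ : 2 ≤ ℓ) (n k : ℕ) (hn : 1 ≤ n) (hk : 1 ≤ k) :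
    ∃ z : ℤ, R ℓ n k = z := by
  obtain ⟨x, y, h1, h2, hx, hy⟩ := exists_roots ℓ hℓ
  obtain ⟨Q, hQ⟩ := first_dvd n k hk hn
  apply integral_rat
  have hpos : 0 < S ℓ 1 1 n := by
    unfold S
    apply Finset.sum_pos
    · intro i hi
      have := u_pos ℓ hℓ i (mem_Icc.1 hi).1
      have h3 : (0 : ℚ) < u ℓ i := by exact_mod_cast this
      positivity
    · exact ⟨1, by rw [mem_Icc]; omega⟩
  have hne : ((S ℓ 1 1 n : ℚ) : ℝ) ≠ 0 := by exact_mod_cast hpos.ne'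
  have h3 : (((R ℓ n k : ℚ)) : ℝ) =
      y ^ (n * (2 * k - 1)) * x ^ (2 * k - 1) * (y * x ^ n) * aeval x Q := by
    unfold R
    push_cast
    rw [div_eq_iff hne, Sh_eval ℓ x y h1 h2 n k 1, Sh_eval ℓ x y h1 h2 n 1 1, hQ, map_mul]
    have h6 : y ^ n * x ^ n = 1 := by rw [← mul_pow, mul_comm y x, h2, one_pow]
    have h7 : (n * (2 * 1 - 1)) = n := by ring_nf
    have h8 : 2 * 1 - 1 = 1 := by norm_num
    rw [h7, h8, pow_one]
    have h9 : (y * x ^ n) * (y ^ n * x) = 1 := by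
      calc (y * x ^ n) * (y ^ n * x) = (x * y) * (y ^ n * x ^ n) := by ring
        _ = 1 := by rw [h2, h6, mul_one]
    linear_combination -(y ^ (n * (2 * k - 1)) * x ^ (2 * k - 1) * aeval x (Sh n 1 1) *
      aeval x Q) * h9
  rw [h3]
  exact ((((hy.pow _).mul (hx.pow _)).mul (hy.mul (hx.pow _)))).mul (integral_aeval x hx Q)

theorem u_two (i : ℕ) : u 2 i = i := by
  have key : ∀ i, u 2 i = i ∧ u 2 (i + 1) = i + 1 := by
    intro i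
    induction i with
    | zero => simp [u]
    | succ i ih =>
      refine ⟨by rw [ih.2]; push_cast; ring, ?_⟩
      have h1 : u 2 (i + 1 + 1) = 2 * u 2 (i + 1) - u 2 i := rfl
      rw [h1, ih.1, ih.2]
      push_cast
      ring
  exact (key i).1

theorem T_fails : ¬ ∃ z : ℤ, T 2 10 5 = z := by
  rintro ⟨z, hz⟩
  unfold T at hz
  simp only [u_two] at hz
  have h1 : (∑ i ∈ Icc 1 10, (((i : ℕ) : ℤ) : ℚ) ^ (3 * (4 * 5 - 3))) =
      ((∑ i ∈ Icc 1 10, i ^ 51 : ℕ) : ℚ) := by push_cast; rfl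
  have h2 : (∑ i ∈ Icc 1 10, (((i : ℕ) : ℤ) : ℚ) ^ 3) = ((∑ i ∈ Icc 1 10, i ^ 3 : ℕ) : ℚ) := by
    push_cast; rfl
  have h3 : (∑ i ∈ Icc 1 10, i ^ 3 : ℕ) = 3025 := by decide
  have h4 : (∑ i ∈ Icc 1 10, i ^ 51 : ℕ) % 3025 = 2200 := by
    norm_num [Finset.sum_Icc_succ_top]
  rw [h1, h2, h3, div_eq_iff (by norm_num)] at hz
  have h5 : ((∑ i ∈ Icc 1 10, i ^ 51 : ℕ) : ℤ) = z * 3025 := by exact_mod_cast hz
  omega

/-- Part (a) of the question holds for all `ℓ`, `n`, `k`, and part (b) fails for `n = 10`,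
`k = 5`. -/
theorem result :
    (∀ ℓ : ℤ, 2 ≤ ℓ → ∀ n k : ℕ, 1 ≤ n → 1 ≤ k →
      (∃ z : ℤ, P ℓ n k = z) ∧ (∃ z : ℤ, R ℓ n k = z)) ∧
    ¬ ∃ z : ℤ, T 2 10 5 = z :=
  ⟨fun ℓ hℓ n k hn hk => ⟨P_integral ℓ hℓ n k hk, R_integral ℓ hℓ n k hn hk⟩, T_fails⟩

end Pool.Agent.Results.MP_0634a4_nt.PowerSumRatios
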